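import Pool.Agent.L5helper98.CQ.Stmts

/-!
Project CQ (MP_b09bc5_pr), Task TopUp: the final assembly of the upper bound.
-/

set_option autoImplicit false

namespace Pool.Agent.L5helper47.CQ

open Finset Filter
open Pool.Agent.L5helper98.CQ
open scoped Classical

lemma exp_neg_le (x y : ℝ) (hy : 0 < y) (h : y⁻¹ ≤ x + 1) : Real.exp (-x) ≤ y := by
  rw [Real.exp_neg]
  have h1 : y⁻¹ ≤ Real.exp x := h.trans (Real.add_one_le_exp x)
  exact inv_le_of_inv_le₀ hy h1

/-- largeness facts for `l = log n` -/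
structure Large (ε δ C : ℝ) (j R0 : ℕ) (l : ℝ) : Prop where
  one : 1 ≤ l
  k : 1 ≤ ε * l
  r0 : (R0 : ℝ) ≤ l
  col : 2 * (j : ℝ) + 1 ≤ 3 / 8 * δ * ε * l
  b : C * l < Real.exp (l / 3)
  c : 2 * (2 + δ) * l ≤ Real.exp (l / 2)
  d : Real.exp (-(ε * l)) ≤ 1 / 2
  e : Real.exp (-(3 / 8 * δ * ε * l - 1)) ≤ δ / 4
  f : Real.exp (-(ε * l - 1)) ≤ δ / 4 / ((2 + δ) * (8 / δ))
  g : Real.exp (-(3 * l - R0)) ≤ δ / 4
  h : Real.exp (-l) ≤ δ / 4

lemma exists_large (ε δ C : ℝ) (j R0 : ℕ) (hε : 0 < ε) (hδ : 0 < δ) :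
    ∃ n0 : ℕ, ∀ n : ℕ, n0 ≤ n → Large ε δ C j R0 (Real.log n) := by
  have hev : ∀ᶠ l : ℝ in atTop, Large ε δ C j R0 l := by
    have hδε : 0 < 3 / 8 * δ * ε := by positivity
    filter_upwards [eventually_ge_atTop (1 : ℝ), eventually_ge_atTop (R0 : ℝ),
      eventually_ge_atTop ((2 * (j : ℝ) + 1) / (3 / 8 * δ * ε)),
      eventually_ge_atTop (18 * C), eventually_ge_atTop (16 * (2 + δ)),
      eventually_ge_atTop (1 / ε), eventually_ge_atTop ((δ / 4)⁻¹ / (3 / 8 * δ * ε)),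
      eventually_ge_atTop ((δ / 4 / ((2 + δ) * (8 / δ)))⁻¹ / ε),
      eventually_ge_atTop ((δ / 4)⁻¹ + R0)] with l h1 h2 h3 h4 h5 h6 h7 h8 h9
    have hl : 0 < l := by linarith
    refine ⟨h1, ?_, h2, ?_, ?_, ?_, ?_, ?_, ?_, ?_, ?_⟩
    · rw [div_le_iff₀ hε] at h6
      linarith
    · rw [div_le_iff₀ hδε] at h3
      linarith
    · have := Real.quadratic_le_exp_of_nonneg (x := l / 3) (by positivity)
      nlinarith
    · have := Real.quadratic_le_exp_of_nonneg (x := l / 2) (by positivity)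
      nlinarith
    · apply exp_neg_le _ _ (by norm_num)
      rw [div_le_iff₀ hε] at h6
      norm_num
      linarith
    · apply exp_neg_le _ _ (by positivity)
      rw [div_le_iff₀ hδε] at h7
      linarith
    · apply exp_neg_le _ _ (by positivity)
      rw [div_le_iff₀ hε] at h8
      linarith
    · apply exp_neg_le _ _ (by positivity)
      have : (0 : ℝ) ≤ R0 := Nat.cast_nonneg _
      have : (0 : ℝ) < (δ / 4)⁻¹ := by positivity
      linarith
    · apply exp_neg_le _ _ (by positivity)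
      have : (0 : ℝ) ≤ R0 := Nat.cast_nonneg _
      linarith
  have h2 := (Real.tendsto_log_atTop.comp (tendsto_natCast_atTop_atTop (R := ℝ))).eventually hev
  obtain ⟨n0, hn0⟩ := eventually_atTop.1 h2
  exact ⟨n0, fun n hn => hn0 n hn⟩

/-- colourability is monotone in the number of colours -/
lemma colorable_mono {n : ℕ} {ω : Om n} {k k' : ℕ} (h : colorable ω k) (hk : k ≤ k') :
    colorable ω k' := by
  obtain ⟨c, hc, h2⟩ := h
  exact ⟨c, fun v => (hc v).trans_le hk, h2⟩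

/-- the logarithmic form of the range -/
lemma rng_log {ε : ℝ} {n : ℕ} {p : ℝ} (hn : 1 ≤ Real.log n) (h : rng ε n p) :
    0 < p ∧ p = Real.exp (-Real.log (1 / p)) ∧ ε * Real.log n ≤ Real.log (1 / p) ∧
      Real.log (1 / p) ≤ (1 / 3 - ε) * Real.log n := by
  have hn0 : (0 : ℝ) < n := by
    rcases Nat.eq_zero_or_pos n with h0 | h0
    · subst h0; simp at hn; linarith
    · exact_mod_cast h0
  obtain ⟨h1, h2⟩ := h
  rw [Real.rpow_def_of_pos hn0] at h1 h2
  have hp : 0 < p := (Real.exp_pos _).trans_le h1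
  have e1 : Real.log (1 / p) = - Real.log p := by rw [one_div, Real.log_inv]
  have h3 := Real.log_le_log (Real.exp_pos _) h1
  have h4 := Real.log_le_log hp h2
  rw [Real.log_exp] at h3 h4
  refine ⟨hp, ?_, ?_, ?_⟩
  · rw [e1, neg_neg, Real.exp_log hp]
  · rw [e1]; linarith
  · rw [e1]; linarith

theorem taskTopUp : TaskTopUp := by
  intro hF hN hU hCh hR ε δ hε hδ
  obtain ⟨β, hβ, hβ1, hβ2⟩ : ∃ β : ℝ, 0 < β ∧ β ≤ ε * δ / 8 ∧ β ≤ ε / 2 :=
    ⟨min (ε * δ / 8) (ε / 2), by positivity, min_le_left _ _, min_le_right _ _⟩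
  obtain ⟨R0, hR0a, hR0b⟩ : ∃ R0 : ℕ, 1 / ε ≤ R0 ∧ 2 ≤ R0 :=
    ⟨⌈1 / ε⌉₊ + 2, by push_cast; linarith [Nat.le_ceil (1 / ε)], by omega⟩
  obtain ⟨j, hj⟩ : ∃ j : ℕ, 4 / β ≤ j := ⟨⌈4 / β⌉₊, Nat.le_ceil _⟩
  have hC : (0 : ℝ) < (R0 : ℝ) + 2 := by positivity
  obtain ⟨n1, hn1⟩ := exists_large ε δ ((R0 : ℝ) + 2) j R0 hε hδ
  obtain ⟨n2, hn2⟩ := hCh ε (ε / 4) hε (by positivity) le_rfl
  have h3 : ∃ n3 : ℕ, ∀ r : ℕ, 2 ≤ r → r ≤ R0 → ∀ n : ℕ, n3 ≤ n →
      ∀ p : ℝ, rng ε n p → n * p ^ r ≤ ((R0 : ℝ) + 2) * Real.log n →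
      ∀ R V2 : Finset (Fin n), Disjoint R V2 →
        (R.card : ℝ) ≤ (n : ℝ) ^ (-β) * Real.exp (ls n p) / p →
        (n : ℝ) - (n : ℝ) ^ (1 - β) ≤ V2.card →
        Pb p (fun ω : Om n => ∃ v ∈ R, (n : ℝ) ^ (-β / 4) <
            ((hyp ω r R V2).filter (fun K => v ∈ K)).card *
                (1 / (⌈(n : ℝ) ^ (-β / 2) / p⌉₊ : ℝ)) ^ (r - 1) +
            ((hyp ω (r + 1) R ∅).filter (fun K => v ∈ K)).card *
                (1 / (⌈(n : ℝ) ^ (-β / 2) / p⌉₊ : ℝ)) ^ r)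
          ≤ 1 / n := by
    choose! f hf using fun (r : ℕ) (hr : 2 ≤ r) =>
      hR ε β ((R0 : ℝ) + 2) r hε hβ (by linarith) hC hr
    refine ⟨(Finset.range (R0 + 1)).sup f, fun r hr hr2 n hn => hf r hr n (le_trans ?_ hn)⟩
    exact Finset.le_sup (by rw [Finset.mem_range]; omega)
  obtain ⟨n3, hn3⟩ := h3
  refine ⟨max n1 (max n2 n3), fun n hn p hp => ?_⟩
  have hL := hn1 n (le_trans (le_max_left _ _) hn)
  obtain ⟨-, hD1, hL3, hls⟩ := hn2 n (le_trans ((le_max_left _ _).trans (le_max_right _ _)) hn) p hp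
  have hR3 := fun r h2 h3 =>
    hn3 r h2 h3 n (le_trans ((le_max_right _ _).trans (le_max_right _ _)) hn) p hp
  have hn0 : (0 : ℝ) < n := by
    rcases Nat.eq_zero_or_pos n with h0 | h0
    · subst h0
      have := hL.one
      simp at this
      linarith
    · exact_mod_cast h0
  obtain ⟨hp0, hpe, hL1, hL2⟩ := rng_log hL.one hp
  have hlnp : Real.log (n * p) = Real.log n - Real.log (1 / p) := by
    rw [Real.log_mul hn0.ne' hp0.ne', one_div, Real.log_inv]
    ring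
  set l := Real.log n with hl
  set L := Real.log (1 / p) with hLdef
  have en : (n : ℝ) = Real.exp l := (Real.exp_log hn0).symm
  have hrp : ∀ x : ℝ, (n : ℝ) ^ x = Real.exp (l * x) := fun x => Real.rpow_def_of_pos hn0 x
  have hl1 : 1 ≤ l := hL.one
  have hl0 : 0 < l := by linarith
  have hε6 : ε ≤ 1 / 6 := by
    by_contra hc
    push Not at hc
    nlinarith
  have hβ12 : β ≤ 1 / 12 := by linarith
  have hLpos : 0 < L := by nlinarith
  have hp1 : p ≤ 1 := by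
    rw [hpe]
    exact Real.exp_le_one_iff.2 (by linarith)
  obtain ⟨D, hD⟩ : ∃ D, D = Real.log (n * p) - ls n p := ⟨_, rfl⟩
  rw [← hD] at hD1
  have hDl : D ≤ l := by rw [hD, hlnp]; linarith
  have hD0 : 1 ≤ D := hL.k.trans hD1
  have hfv : fv n p = D / p := by rw [fv, hD]
  -- exp (ls) / p = n exp (-D)
  have els : Real.exp (ls n p) / p = Real.exp (l - D) := by
    have : ls n p = (l - D) + -L := by rw [hD, hlnp]; ring
    rw [this, Real.exp_add, ← hpe]
    field_simp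
  obtain ⟨F, hFF⟩ : ∃ F, F = fv n p := ⟨_, rfl⟩
  have hF1 : F = D / p := by rw [hFF, hfv]
  have hFge1 : 1 ≤ F := by
    rw [hF1, le_div_iff₀ hp0]
    linarith
  have hFub : F ≤ l * Real.exp (l / 3) := by
    have : F = D * Real.exp L := by
      rw [hF1]
      nth_rewrite 1 [hpe]
      rw [Real.exp_neg, div_inv_eq_mul]
    rw [this]
    apply mul_le_mul hDl _ (Real.exp_pos _).le hl0.le
    apply Real.exp_le_exp.2
    have : 0 < ε * l := by positivity
    linarith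
  -- the number `t`
  obtain ⟨t, ht⟩ : ∃ t : ℕ, t = ⌈(1 + δ / 2) * F⌉₊ := ⟨_, rfl⟩
  have ht1 : (1 + δ / 2) * F ≤ t := by rw [ht]; exact Nat.le_ceil _
  have ht2 : (t : ℝ) < (1 + δ / 2) * F + 1 := by
    rw [ht]; exact Nat.ceil_lt_add_one (by positivity)
  have hδF : 0 ≤ δ * F := by positivity
  have ht3 : (t : ℝ) ≤ (2 + δ) * F := by linarith
  have ht0 : 1 ≤ t := by
    have : (0 : ℝ) < t := lt_of_lt_of_le (by positivity) ht1
    exact_mod_cast this
  have ht4 : (t : ℝ) ≤ Real.exp (l * (1 - β)) / 2 := by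
    have h1 : (t : ℝ) ≤ (2 + δ) * (l * Real.exp (l / 3)) :=
      ht3.trans (mul_le_mul_of_nonneg_left hFub (by positivity))
    have h2 : 2 * (t : ℝ) ≤ Real.exp (l / 2) * Real.exp (l / 3) := by
      have := mul_le_mul_of_nonneg_right hL.c (Real.exp_pos (l / 3)).le
      linarith
    have h3 : Real.exp (l / 2) * Real.exp (l / 3) ≤ Real.exp (l * (1 - β)) := by
      rw [← Real.exp_add]
      apply Real.exp_le_exp.2
      have h4 : l * β ≤ l * (1 / 12) := mul_le_mul_of_nonneg_left hβ12 hl0.le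
      linarith
    linarith
  obtain ⟨m1, hm1⟩ : ∃ m1, m1 = (n : ℝ) ^ (-β) * Real.exp (ls n p) / p := ⟨_, rfl⟩
  have hm1e : m1 = Real.exp (l * (1 - β) - D) := by
    rw [hm1, mul_div_assoc, els, hrp, ← Real.exp_add]
    congr 1
    ring
  have hm1pos : 0 < m1 := by rw [hm1e]; exact Real.exp_pos _
  have hm1b : m1 ≤ Real.exp (l * (1 - β)) / 2 := by
    have : m1 ≤ Real.exp (l * (1 - β)) * Real.exp (-(ε * l)) := by
      rw [hm1e, ← Real.exp_add]
      apply Real.exp_le_exp.2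
      linarith
    have h2 := mul_le_mul_of_nonneg_left hL.d (Real.exp_pos (l * (1 - β))).le
    linarith
  have htn : t ≤ n := by
    have h1 : (t : ℝ) ≤ n := by
      have : Real.exp (l * (1 - β)) ≤ n := by
        rw [en]
        apply Real.exp_le_exp.2
        have h4 : 0 ≤ l * β := by positivity
        linarith
      have := Real.exp_pos (l * (1 - β))
      linarith
    exact_mod_cast h1
  obtain ⟨T, -, hT⟩ := Finset.exists_subset_card_eq (s := (univ : Finset (Fin n))) (n := t)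
    (by simpa using htn)
  -- the number `r`
  have hR0C : n * p ^ R0 ≤ ((R0 : ℝ) + 2) * l := by
    have h1 : n * p ^ R0 ≤ 1 := by
      rw [en, hpe, ← Real.exp_nat_mul, ← Real.exp_add]
      apply Real.exp_le_one_iff.2
      have h2 : 1 ≤ R0 * ε := by
        rwa [div_le_iff₀ hε] at hR0a
      have h3 : (R0 : ℝ) * (ε * l) ≤ R0 * L := mul_le_mul_of_nonneg_left hL1 (Nat.cast_nonneg _)
      have h4 : 1 * l ≤ (R0 * ε) * l := mul_le_mul_of_nonneg_right h2 hl0.le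
      linarith
    have h2 : (0 : ℝ) ≤ R0 * l := by positivity
    linarith
  have hex : ∃ r : ℕ, 2 ≤ r ∧ n * p ^ r ≤ ((R0 : ℝ) + 2) * l := by
    refine ⟨R0, hR0b, ?_⟩
    exact hR0C
  obtain ⟨r, ⟨hr2, hrC⟩, hrR0, hrmin⟩ : ∃ r : ℕ, (2 ≤ r ∧ n * p ^ r ≤ ((R0 : ℝ) + 2) * l) ∧
      r ≤ R0 ∧ ∀ i < r, ¬ (2 ≤ i ∧ n * p ^ i ≤ ((R0 : ℝ) + 2) * l) := by
    refine ⟨Nat.find hex, Nat.find_spec hex, ?_, fun i hi => Nat.find_min hex hi⟩
    apply Nat.find_min'
    refine ⟨hR0b, ?_⟩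
    exact hR0C
  have hr3 : 3 ≤ r := by
    by_contra hc
    have h2 : r = 2 := by omega
    rw [h2] at hrC
    have h3 : Real.exp (l / 3) ≤ n * p ^ 2 := by
      rw [en, hpe, ← Real.exp_nat_mul, ← Real.exp_add]
      apply Real.exp_le_exp.2
      push_cast
      have : 0 < ε * l := by positivity
      linarith
    have := hL.b
    linarith
  have hr1 : ((R0 : ℝ) + 2) * l < n * p ^ (r - 1) := by
    have := hrmin (r - 1) (by omega)
    push Not at this
    exact this (by omega)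
  have hrn : r ≤ n := by
    have h1 : (R0 : ℝ) ≤ n := hL.r0.trans (Real.log_le_self hn0.le)
    have h2 : R0 ≤ n := by exact_mod_cast h1
    omega
  -- the other parameters
  obtain ⟨a, ha⟩ : ∃ a : ℕ, a = ⌊δ / 8 * F⌋₊ := ⟨_, rfl⟩
  have ha1 : (a : ℝ) ≤ δ / 8 * F := by rw [ha]; exact Nat.floor_le (by positivity)
  have ha2 : δ / 8 * F < a + 1 := by rw [ha]; exact Nat.lt_floor_add_one _
  obtain ⟨Q, hQ⟩ : ∃ Q : ℕ, Q = ⌈(n : ℝ) ^ (-β / 2) / p⌉₊ := ⟨_, rfl⟩
  have hQpos : 0 < (n : ℝ) ^ (-β / 2) / p := div_pos (Real.rpow_pos_of_pos hn0 _) hp0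
  have hQ1 : 1 ≤ Q := by rw [hQ]; exact Nat.one_le_ceil_iff.2 hQpos
  have hQ2 : (Q : ℝ) ≤ 2 / p := by
    have h1 : (Q : ℝ) < (n : ℝ) ^ (-β / 2) / p + 1 := by
      rw [hQ]; exact Nat.ceil_lt_add_one hQpos.le
    have h2 : (n : ℝ) ^ (-β / 2) ≤ 1 := by
      rw [hrp]
      apply Real.exp_le_one_iff.2
      have : 0 < l * β := by positivity
      linarith
    have h3 : (n : ℝ) ^ (-β / 2) / p ≤ 1 / p := by gcongr
    have h4 : 1 ≤ 1 / p := by rw [le_div_iff₀ hp0]; linarith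
    have h5 : 2 / p = 1 / p + 1 / p := by ring
    linarith
  have hρm : ((n : ℝ) ^ (-β / 4)) ^ j * m1 < 1 := by
    rw [hrp, ← Real.exp_nat_mul, hm1e, ← Real.exp_add]
    apply Real.exp_lt_one_iff.2
    have h1 : 4 ≤ (j : ℝ) * β := by rwa [div_le_iff₀ hβ] at hj
    have h2 : 4 * l ≤ (j : ℝ) * β * l := mul_le_mul_of_nonneg_right h1 hl0.le
    have h3 : 0 < l * β := by positivity
    linarith
  have hcol : T.card + a + j * Q ≤ ⌊(1 + δ) * fv n p⌋₊ := by
    apply Nat.le_floor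
    rw [hT, ← hFF]
    push_cast
    have h1 : (j : ℝ) * Q ≤ j * (2 / p) := mul_le_mul_of_nonneg_left hQ2 (Nat.cast_nonneg _)
    have h2 : (2 * (j : ℝ) + 1) / p ≤ 3 / 8 * δ * F := by
      rw [hF1, div_le_iff₀ hp0]
      have : 3 / 8 * δ * (D / p) * p = 3 / 8 * δ * D := by field_simp
      rw [this]
      have h3 := hL.col
      have : 3 / 8 * δ * (ε * l) ≤ 3 / 8 * δ * D := mul_le_mul_of_nonneg_left hD1 (by positivity)
      linarith
    have h4 : 1 ≤ 1 / p := by rw [le_div_iff₀ hp0]; linarith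
    have h5 : (2 * (j : ℝ) + 1) / p = j * (2 / p) + 1 / p := by ring
    linarith
  -- the power `(1-p)^(t-1)`
  have hpow : (1 - p) ^ (t - 1) ≤ Real.exp (1 - (1 + δ / 2) * D) := by
    have h1 : (1 - p) ^ (t - 1) ≤ (Real.exp (-p)) ^ (t - 1) := by
      apply pow_le_pow_left₀ (by linarith)
      have := Real.add_one_le_exp (-p)
      linarith
    refine h1.trans ?_
    rw [← Real.exp_nat_mul]
    apply Real.exp_le_exp.2
    rw [Nat.cast_sub ht0]
    have h2 : (1 + δ / 2) * D ≤ t * p := by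
      have := mul_le_mul_of_nonneg_right ht1 hp0.le
      rw [hF1] at this
      have e : (1 + δ / 2) * (D / p) * p = (1 + δ / 2) * D := by field_simp
      linarith
    push_cast
    linarith
  have hpow0 : 0 ≤ (1 - p) ^ (t - 1) := pow_nonneg (by linarith) _
  obtain ⟨hF1', hF2'⟩ := hF n p T hp0.le hp1
  -- first term
  have b1 : Pb p (fun ω : Om n => m1 < ((away ω T).card : ℝ)) ≤ δ / 4 := by
    refine (Pb_mono hp0.le hp1 (fun ω h => le_of_lt h)).trans ?_
    refine (markov hp0.le hp1 (fun ω : Om n => ((away ω T).card : ℝ))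
      (fun ω => Nat.cast_nonneg _) m1 hm1pos).trans ?_
    rw [div_le_iff₀ hm1pos]
    refine hF1'.trans ?_
    rw [hT]
    have h1 : (n : ℝ) * (1 - p) ^ (t - 1) ≤ n * Real.exp (1 - (1 + δ / 2) * D) :=
      mul_le_mul_of_nonneg_left hpow hn0.le
    refine h1.trans ?_
    have h2 : (n : ℝ) * Real.exp (1 - (1 + δ / 2) * D) ≤
        Real.exp (-(3 / 8 * δ * ε * l - 1)) * m1 := by
      rw [hm1e, ← Real.exp_add]
      nth_rewrite 1 [en]
      rw [← Real.exp_add]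
      apply Real.exp_le_exp.2
      have h3 : β * l ≤ ε * δ / 8 * l := mul_le_mul_of_nonneg_right hβ1 hl0.le
      have h4 : δ / 2 * (ε * l) ≤ δ / 2 * D := mul_le_mul_of_nonneg_left hD1 (by positivity)
      linarith
    exact h2.trans (mul_le_mul_of_nonneg_right hL.e hm1pos.le)
  -- second term
  have b2 : Pb p (fun ω : Om n => a < (away ω T ∩ T).card) ≤ δ / 4 := by
    have hpos : (0 : ℝ) < a + 1 := by positivity
    refine (Pb_mono hp0.le hp1 (B := fun ω : Om n => (a : ℝ) + 1 ≤ ((away ω T ∩ T).card : ℝ))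
      (fun ω h => by exact_mod_cast h)).trans ?_
    refine (markov hp0.le hp1 (fun ω : Om n => ((away ω T ∩ T).card : ℝ))
      (fun ω => Nat.cast_nonneg _) _ hpos).trans ?_
    rw [div_le_iff₀ hpos]
    refine hF2'.trans ?_
    rw [hT]
    have h1 : (t : ℝ) * (1 - p) ^ (t - 1) ≤ (2 + δ) * F * Real.exp (-(ε * l - 1)) := by
      apply mul_le_mul ht3 (hpow.trans _) hpow0 (by positivity)
      apply Real.exp_le_exp.2
      have : 0 ≤ δ * D := by positivity
      linarith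
    refine h1.trans ?_
    have h2 := hL.f
    rw [le_div_iff₀ (by positivity)] at h2
    have h3 : (2 + δ) * F * Real.exp (-(ε * l - 1)) =
        (Real.exp (-(ε * l - 1)) * ((2 + δ) * (8 / δ))) * (δ / 8 * F) := by
      field_simp
    rw [h3]
    exact mul_le_mul h2 ha2.le (by positivity) (by positivity)
  -- third term
  have b3 : Pb p (fun ω : Om n => ∃ K : Finset (Fin n), K.card = r - 1 ∧
      ∀ w, w ∉ K → ∃ u ∈ K, ¬ adj ω w u) ≤ δ / 4 := by
    refine (hN n (r - 1) p hp0.le hp1 (by omega)).trans ?_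
    refine le_trans ?_ hL.g
    nth_rewrite 1 [en]
    rw [← Real.exp_nat_mul, ← Real.exp_add]
    apply Real.exp_le_exp.2
    have h1 : ((r - 1 : ℕ) : ℝ) ≤ (R0 : ℝ) - 1 := by
      rw [Nat.cast_sub (by omega)]
      push_cast
      have : (r : ℝ) ≤ R0 := by exact_mod_cast hrR0
      linarith
    have h2 : p ^ (r - 1) ≤ 1 := pow_le_one₀ hp0.le hp1
    have h2' : 0 ≤ p ^ (r - 1) := by positivity
    have h3 : ((r - 1 : ℕ) : ℝ) * p ^ (r - 1) ≤ R0 := by
      have : ((r - 1 : ℕ) : ℝ) * p ^ (r - 1) ≤ ((r - 1 : ℕ) : ℝ) * 1 :=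
        mul_le_mul_of_nonneg_left h2 (Nat.cast_nonneg _)
      linarith
    have h4 : ((r - 1 : ℕ) : ℝ) * l ≤ ((R0 : ℝ) - 1) * l := mul_le_mul_of_nonneg_right h1 hl0.le
    linarith
  have b4 : (1 : ℝ) / n ≤ δ / 4 := by
    rw [en, one_div, ← Real.exp_neg]
    exact hL.h
  have key := hU n r a j Q p ((n : ℝ) ^ (-β / 4)) m1 (1 / n) T hp0.le hp1 hr2 hrn hQ1
    (Real.rpow_nonneg hn0.le _) (by positivity) hρm (fun R V2 hdis hRc hV2 => by
      rw [hQ]
      refine hR3 r hr2 hrR0 hrC R V2 hdis (hm1 ▸ hRc) (le_trans ?_ hV2)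
      rw [hT, hrp (1 - β)]
      linarith)
  refine (Pb_mono hp0.le hp1 (B := fun ω : Om n => ¬ colorable ω (T.card + a + j * Q))
    (fun ω h h2 => h (colorable_mono h2 hcol))).trans (key.trans ?_)
  linarith

end Pool.Agent.L5helper47.CQ
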